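import Pool.Agent.Q197.SP.R82f

/-!
# Consecutive elements with distant square roots: the exact entropy budget of their number, for all random sets
-/

set_option autoImplicit false

namespace Pool.Agent.Results.MP_82fd4a_nt.BudgetOfFailures

open Finset Filter MeasureTheory Pool.Agent.Q197.WN Pool.Agent.Q120.CL Pool.Agent.Q120.TT Pool.Agent.Q120.ET
open scoped Topology

theorem result (z : ℕ → ℕ) (hs : ∀ η : ℝ, 0 < η → ∀ᶠ k : ℕ in atTop, (z k : ℝ) ≤ η * k) (θ : ℝ) (hθ : 0 < θ) :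
    ∀ δ : ℝ, 0 < δ → ∀ M : ℕ → ℕ, (∀ k, 1 ≤ M k) → (∀ k, θ * M k ≤ (1 - δ) * 2 ^ k) → ∀ d : ℕ → ℝ, (∀ k, 0 ≤ d k) →
      (Summable (fun k : ℕ => d k * k / (2 ^ k * M k)) ↔ ∀ (Ω : Type) [MeasurableSpace Ω] (μ : Measure Ω)
        [IsProbabilityMeasure μ] (A : Ω → Set ℕ), Near (pr z) Bk d μ A → ∀ᵐ ω ∂μ, ∀ᶠ k : ℕ in atTop, num θ k (A ω) < M k) ∧
      (¬ Summable (fun k : ℕ => d k * k / (2 ^ k * M k)) → ∃ (Ω : Type) (_ : MeasurableSpace Ω) (μ : Measure Ω)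
        (_ : IsProbabilityMeasure μ) (A : Ω → Set ℕ), Near (pr z) Bk d μ A ∧
          ∀ᵐ ω ∂μ, ∃ᶠ k : ℕ in atTop, M k ≤ num θ k (A ω)) := by
  exact (Pool.Agent.Q197.SP.R82f.all_parts z hs θ hθ).2.2

end Pool.Agent.Results.MP_82fd4a_nt.BudgetOfFailures
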