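import Pool.Agent.Q167.AN.F

/-!
# Andrica's inequality for random primes with `k`-wise independence

In Cramér's random model every integer `n ≥ 3` belongs to the random set `A` with probability
`1 / log n`. In the model with `k`-wise independence only any `k` of the events `n ∈ A` have to be
independent. Let `p k N` be the supremum over all these models of the probability that Andrica's
inequality `√b - √a < 1` fails for some consecutive elements `a < b` of `A` with `a ≥ N`.

(1) If `k ≥ 4`, then in every model Andrica's inequality holds almost surely for all consecutive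
    elements `a < b` of `A` with `a` large; if `k ≤ 3`, then in some model it fails almost surely
    for consecutive elements beyond every `N`.
(2) For `k ≥ 4` and `m = ⌊k / 2⌋` the quantity `p k N` lies between two positive multiples of
    `√N (log N / √N) ^ m` for large `N`.
(3) As `N` and `k` tend to infinity, uniformly in `k`,
    `- log (p k N) ~ m log (2 e √N / (m log N))`, `m = min (⌊k / 2⌋, ⌊2 √N / log N⌋)`.
-/

set_option autoImplicit false

namespace Pool.Agent.Results.MP_82fd4a_nt.LimitedIndependence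

open MeasureTheory Filter Topology

/-- Cramér's model with `k`-wise independence: `E n` is the event that the integer `n` belongs to
the random set. Every set `T` of at most `k` integers `n ≥ 3` is contained in the random set with
probability `∏ 1 / log n`. -/
structure CramerModel {Ω : Type} [MeasurableSpace Ω] (P : Measure Ω) (k : ℕ)
    (E : ℕ → Set Ω) : Prop where
  meas : ∀ n, MeasurableSet (E n)
  indep : ∀ T : Finset ℕ, (∀ n ∈ T, 3 ≤ n) → T.card ≤ k →
    P (⋂ n ∈ T, E n) = ENNReal.ofReal (∏ n ∈ T, 1 / Real.log n)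

/-- Andrica's inequality fails for some consecutive elements `a < b` of `A` with `a ≥ N`. -/
def AndricaFails (A : Set ℕ) (N : ℕ) : Prop :=
  ∃ a ∈ A, ∃ b ∈ A, N ≤ a ∧ a < b ∧ (∀ c ∈ A, ¬ (a < c ∧ c < b)) ∧
    1 ≤ Real.sqrt b - Real.sqrt a

/-- The largest probability `p k N` of a failure beyond `N` in the models with `k`-wise
independence. -/
noncomputable def worst (k N : ℕ) : ENNReal :=
  sSup {p | ∃ (Ω : Type) (_ : MeasurableSpace Ω) (P : Measure Ω) (_ : IsProbabilityMeasure P)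
    (E : ℕ → Set Ω), CramerModel P k E ∧ p = P {ω | AndricaFails {n | ω ∈ E n} N}}

/-- `m = min (⌊k / 2⌋, ⌊2 √N / log N⌋)`. -/
noncomputable def halfOrder (k N : ℕ) : ℕ := min (k / 2) ⌊2 * Real.sqrt N / Real.log N⌋₊

/-- `F = m log (2 e √N / (m log N))` with `m = halfOrder k N`. -/
noncomputable def rate (k N : ℕ) : ℝ :=
  halfOrder k N * Real.log (2 * Real.exp 1 * Real.sqrt N / (halfOrder k N * Real.log N))

lemma indep_iff {Ω : Type} [MeasurableSpace Ω] {P : Measure Ω} [IsProbabilityMeasure P] {k : ℕ}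
    {E : ℕ → Set Ω} :
    CramerModel P k E ↔ (∀ n, MeasurableSet (E n)) ∧
      ∀ T : Finset ℕ, (∀ n ∈ T, 3 ≤ n ∧ T.card ≤ k) →
        P (⋂ n ∈ T, E n) = ENNReal.ofReal (∏ n ∈ T, 1 / Real.log n) := by
  constructor
  · intro h
    refine ⟨h.meas, fun T hT => ?_⟩
    rcases T.eq_empty_or_nonempty with rfl | ⟨x, hx⟩
    · simp
    · exact h.indep T (fun n hn => (hT n hn).1) (hT x hx).2
  · rintro ⟨h1, h2⟩
    exact ⟨h1, fun T hT hc => h2 T fun n hn => ⟨hT n hn, hc⟩⟩

lemma le_worst {k N : ℕ} {x : ENNReal}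
    (h : ∃ (Ω : Type) (_ : MeasurableSpace Ω) (P : Measure Ω) (_ : IsProbabilityMeasure P)
      (E : ℕ → Set Ω), (∀ n, MeasurableSet (E n)) ∧
      (∀ T : Finset ℕ, (∀ n ∈ T, 3 ≤ n ∧ T.card ≤ k) →
        P (⋂ n ∈ T, E n) = ENNReal.ofReal (∏ n ∈ T, 1 / Real.log n)) ∧
      x ≤ P {ω | Q167.AN.Fails {n | ω ∈ E n} N}) : x ≤ worst k N := by
  obtain ⟨Ω, mΩ, P, hP, E, hE, hT, hx⟩ := h
  refine hx.trans (le_sSup ?_)
  exact ⟨Ω, mΩ, P, hP, E, indep_iff.2 ⟨hE, hT⟩, rfl⟩

lemma worst_le {k N : ℕ} {x : ENNReal}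
    (h : ∀ (Ω : Type) [MeasurableSpace Ω] (P : Measure Ω) [IsProbabilityMeasure P] (E : ℕ → Set Ω),
      (∀ n, MeasurableSet (E n)) → (∀ T : Finset ℕ, (∀ n ∈ T, 3 ≤ n ∧ T.card ≤ k) →
        P (⋂ n ∈ T, E n) = ENNReal.ofReal (∏ n ∈ T, 1 / Real.log n)) →
      P {ω | Q167.AN.Fails {n | ω ∈ E n} N} ≤ x) : worst k N ≤ x := by
  apply sSup_le
  rintro p ⟨Ω, mΩ, P, hP, E, hM, rfl⟩
  obtain ⟨h1, h2⟩ := indep_iff.1 hM
  exact h Ω P E h1 h2

/-- Andrica's inequality for random primes with limited independence -/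
theorem result :
    -- (1)
    ((∀ k : ℕ, 4 ≤ k → ∀ (Ω : Type) [MeasurableSpace Ω] (P : Measure Ω) [IsProbabilityMeasure P]
        (E : ℕ → Set Ω), CramerModel P k E →
        ∀ᵐ ω ∂P, ∃ N : ℕ, ¬ AndricaFails {n | ω ∈ E n} N) ∧
      (∀ k : ℕ, k ≤ 3 → ∃ (Ω : Type) (_ : MeasurableSpace Ω) (P : Measure Ω)
        (_ : IsProbabilityMeasure P) (E : ℕ → Set Ω), CramerModel P k E ∧
        ∀ᵐ ω ∂P, ∀ N : ℕ, AndricaFails {n | ω ∈ E n} N)) ∧
    -- (2)
    (∀ k : ℕ, 4 ≤ k → ∃ c C : ℝ, 0 < c ∧ 0 < C ∧ ∀ᶠ N : ℕ in atTop,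
      ENNReal.ofReal (c * (Real.sqrt N * (Real.log N / Real.sqrt N) ^ (k / 2))) ≤ worst k N ∧
      worst k N ≤ ENNReal.ofReal (C * (Real.sqrt N * (Real.log N / Real.sqrt N) ^ (k / 2)))) ∧
    -- (3)
    (∀ ε : ℝ, 0 < ε → ε ≤ 1 → ∃ K : ℕ, ∀ N : ℕ, K ≤ N → ∀ k : ℕ, K ≤ k →
      ENNReal.ofReal (Real.exp (-((1 + ε) * rate k N))) ≤ worst k N ∧
      worst k N ≤ ENNReal.ofReal (Real.exp (-((1 - ε) * rate k N)))) := by
  refine ⟨⟨fun k hk Ω _ P _ E hM => ?_, fun k hk => ?_⟩, fun k hk => ?_, fun ε hε hε1 => ?_⟩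
  · obtain ⟨h1, h2⟩ := indep_iff.1 hM
    obtain ⟨c, C, hc, hC, hev⟩ := Q167.AN.fixed_law hk
    rw [ae_iff]
    have hzero : Tendsto (fun N : ℕ => ENNReal.ofReal
        (C * (Real.sqrt N * (Real.log N / Real.sqrt N) ^ (k / 2)))) atTop (𝓝 0) := by
      rw [← ENNReal.ofReal_zero]
      apply ENNReal.tendsto_ofReal
      rw [← mul_zero C]
      apply Tendsto.const_mul
      -- `√N (log N / √N) ^ m ≤ log² N / √N`
      rw [Metric.tendsto_atTop]
      intro ε hε
      have h3 := (Q167.AN.log_small (2 / ε)).and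
        ((Q167.AN.log_small 1).and ((Q167.AN.sqrt_tendsto.eventually_gt_atTop 0).and
          (Q167.LI.tendsto_log_nat.eventually_ge_atTop 1)))
      obtain ⟨N₀, hN₀⟩ := eventually_atTop.1 h3
      refine ⟨N₀, fun N hN => ?_⟩
      obtain ⟨g1, g2, g3, g4⟩ := hN₀ N hN
      have g5 : Real.log N / Real.sqrt N ≤ 1 := by
        rw [div_le_one g3]
        nlinarith
      have g6 : 0 ≤ Real.log N / Real.sqrt N := by positivity
      have g7 : (Real.log N / Real.sqrt N) ^ (k / 2) ≤ (Real.log N / Real.sqrt N) ^ 2 :=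
        pow_le_pow_of_le_one g6 g5 (by omega)
      have g8 : Real.sqrt N * (Real.log N / Real.sqrt N) ^ 2 = Real.log N ^ 2 / Real.sqrt N := by
        field_simp
      rw [Real.dist_eq, sub_zero, abs_of_nonneg (by positivity)]
      calc Real.sqrt N * (Real.log N / Real.sqrt N) ^ (k / 2)
          ≤ Real.log N ^ 2 / Real.sqrt N := by
            rw [← g8]
            exact mul_le_mul_of_nonneg_left g7 g3.le
        _ ≤ ε / 2 := by
            rw [div_mul_eq_mul_div, div_le_iff₀ hε] at g1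
            rw [div_le_div_iff₀ g3 two_pos]
            linarith
        _ < ε := by linarith
    refine le_antisymm (ge_of_tendsto hzero ?_) bot_le
    filter_upwards [hev] with N hN
    refine le_trans (measure_mono ?_) (hN.1 Ω P E h1 h2)
    intro ω hω
    simp only [not_exists, not_not, Set.mem_ofPred_eq] at hω
    exact hω N
  · obtain ⟨Ω, mΩ, P, hP, E, hE, hT, hae⟩ := Q167.SQ.crit_lower (κ := fun _ => 3) (m := 1) le_rfl
      (fun n => by omega) (w := fun n => 2 * n) (fun n hn => by omega)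
      (fun n _ => le_rfl) (by
        intro hs
        apply Real.not_summable_one_div_natCast
        refine Summable.of_norm_bounded_eventually_nat hs ?_
        filter_upwards [Q167.LI.tendsto_log_nat.eventually_ge_atTop 2, eventually_ge_atTop 1]
          with n hn hn1
        have hn0 : (0:ℝ) < n := by exact_mod_cast hn1
        rw [Real.norm_of_nonneg (by positivity), pow_one]
        push_cast
        rw [div_le_div_iff₀ hn0 (by positivity)]
        nlinarith)
    refine ⟨Ω, mΩ, P, hP, E, indep_iff.2 ⟨hE, fun T hT' => hT T fun n hn =>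
      ⟨(hT' n hn).1, (hT' n hn).2.trans hk⟩⟩, ?_⟩
    have hinf := Q167.AN.ae_infinite P hE (k := 3) (by norm_num) hT
    filter_upwards [hae, hinf] with ω h1 h2
    intro N
    obtain ⟨a, ha, haE⟩ := h2 N
    obtain ⟨n, hn, hn2⟩ := (h1.and_eventually (eventually_ge_atTop a)).exists
    obtain ⟨b, hb, hbE⟩ := h2 (n ^ 2)
    exact Q167.AN.fails_of (a := a) (b := b) (n := n) haE ha.le
      (hn2.trans (Nat.le_self_pow two_ne_zero n)) hbE hb hn
  · obtain ⟨c, C, hc, hC, hev⟩ := Q167.AN.fixed_law hk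
    refine ⟨c, C, hc, hC, ?_⟩
    filter_upwards [hev] with N hN
    exact ⟨le_worst hN.2, worst_le hN.1⟩
  · obtain ⟨K, hK⟩ := Q167.AN.growing_law hε hε1
    obtain ⟨N₀, hN₀⟩ := eventually_atTop.1 hK
    refine ⟨max K N₀, fun N hN k hk => ?_⟩
    obtain ⟨h1, h2⟩ := hN₀ N ((le_max_right _ _).trans hN) k ((le_max_left _ _).trans hk)
    exact ⟨le_worst h2, worst_le h1⟩

end Pool.Agent.Results.MP_82fd4a_nt.LimitedIndependence
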