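import Pool.Agent.Q197.SP.R82f

/-!
# Consecutive elements with distant square roots: the exact entropy price of their number, for all random sets
-/

set_option autoImplicit false

namespace Pool.Agent.Results.MP_82fd4a_nt.PriceOfManyFailures

open Finset Filter MeasureTheory Pool.Agent.Q197.WN Pool.Agent.Q120.CL Pool.Agent.Q120.TT Pool.Agent.Q120.ET
open scoped Topology

theorem result (z : ℕ → ℕ) (hs : ∀ η : ℝ, 0 < η → ∀ᶠ k : ℕ in atTop, (z k : ℝ) ≤ η * k) (θ : ℝ) (hθ : 0 < θ) :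
    (∀ ε : ℝ, 0 < ε → ∀ᶠ k : ℕ in atTop, ∀ (Ω : Type) [MeasurableSpace Ω] (μ : Measure Ω) [IsProbabilityMeasure μ]
      (A : Ω → Set ℕ), IsRandomSet A → (∀ᵐ ω ∂μ, ∀ n ∈ A ω, 0 < pr z n) → ∀ M : ℕ, 1 ≤ M →
        (1 - ε) * fee θ k M * μ.real {ω | M ≤ num θ k (A ω)} ≤ 1 + relEnt (pr z) μ A (Bk k)) ∧
    (∀ ε : ℝ, 0 < ε → ε < 1 → ∀ M : ℕ → ℕ, (∀ k, 1 ≤ M k) → (∀ k, θ * M k ≤ (1 - ε) * 2 ^ k) → ∀ q : ℕ → ℝ,
      (∀ k, 0 ≤ q k) → (∀ k, q k ≤ 1) → ∃ (Ω : Type) (_ : MeasurableSpace Ω) (μ : Measure Ω) (_ : IsProbabilityMeasure μ)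
        (A : Ω → Set ℕ), Near (pr z) Bk (fun k => (1 + ε) * (q k * fee θ k (M k))) μ A ∧
          (∀ᶠ k : ℕ in atTop, q k ≤ μ.real {ω | M k ≤ num θ k (A ω)}) ∧
          (¬ Summable q → ∀ᵐ ω ∂μ, ∃ᶠ k : ℕ in atTop, M k ≤ num θ k (A ω))) := by
  obtain ⟨h1, h2, _⟩ := Pool.Agent.Q197.SP.R82f.all_parts z hs θ hθ
  exact ⟨h1, h2⟩

end Pool.Agent.Results.MP_82fd4a_nt.PriceOfManyFailures
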