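import Pool.Agent.Q106.GMM.Tail
import Pool.Agent.Q120.GM.Exists

/-!
# Andrica's inequality beyond `N` in the sieved models of the primes

`Q` is the level: the random set contains each `n` coprime to `Q` independently with
probability `min(1, (Q/φ(Q))/log n)`, and no other `n`. For `Q = 1` this is the model of Cramér.

`Far S α δ N`: there are consecutive elements `a < b` of `S` with `a ≥ N` and `b^α - a^α ≥ δ`. For `α = 1/2`, `δ = 1`
this says that Andrica's inequality fails beyond `N`.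
-/

set_option autoImplicit false

namespace Pool.Agent.Results.MP_82fd4a_nt.ProbabilityOfFailureBeyond

open MeasureTheory Filter Pool.Agent.Q120.GM
open Pool.Agent.Q106.GMM (Far thr)
open scoped Topology

/-- The laws of the differences beyond `N`. -/
structure Law {Ω : Type} [MeasurableSpace Ω] (μ : Measure Ω) (A : Ω → Set ℕ) : Prop where
  /-- a constant difference `δ` -/
  const : ∀ α δ : ℝ, 0 < α → α < 1 → 0 < δ →
    Tendsto (fun N : ℕ => Real.log (μ.real {ω | Far (A ω) α δ N}) * Real.log N / (N : ℝ) ^ (1 - α)) atTop (𝓝 (-(δ / α)))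
  /-- differences `lam * α * log²N / N^(1-α)`, uniformly -/
  uniform : ∀ α ε : ℝ, 0 < α → α < 1 → 0 < ε → ε < 1 →
    ∃ c : ℝ, 0 < c ∧ ∀ᶠ N : ℕ in atTop, ∀ lam : ℝ, 1 + ε ≤ lam → lam * Real.log N ^ 2 ≤ c * N →
      (N : ℝ) ^ (-((1 + ε) * (lam - 1))) ≤ μ.real {ω | Far (A ω) α (lam * α * Real.log N ^ 2 / (N : ℝ) ^ (1 - α)) N} ∧
      μ.real {ω | Far (A ω) α (lam * α * Real.log N ^ 2 / (N : ℝ) ^ (1 - α)) N} ≤ (N : ℝ) ^ (-((1 - ε) * (lam - 1)))
  /-- the supremum of the differences beyond `N` is `~ α log²N / N^(1-α)` almost surely, for all `α` -/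
  sup : ∀ᵐ ω ∂μ, ∀ α ε : ℝ, 0 < α → α < 1 → 0 < ε → ε < 1 → ∀ᶠ N : ℕ in atTop,
    Far (A ω) α ((1 - ε) * α * Real.log N ^ 2 / (N : ℝ) ^ (1 - α)) N ∧
      ¬ Far (A ω) α ((1 + ε) * α * Real.log N ^ 2 / (N : ℝ) ^ (1 - α)) N
  /-- the probability does not change under conditions on the elements below `N` -/
  indep : ∀ (α δ : ℝ) (N : ℕ) (P : Set ℕ → Prop), (∀ S T : Set ℕ, (∀ i < N, (i ∈ S ↔ i ∈ T)) → P S → P T) →
    μ.real {ω | Far (A ω) α δ N ∧ P (A ω)} = μ.real {ω | Far (A ω) α δ N} * μ.real {ω | P (A ω)}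

/-- **The probability that Andrica's inequality fails beyond `N` is `exp(-(2 + o(1)) √N / log N)`**, and its relatives. -/
theorem result : (∀ Q : ℕ, IsModel (prodMeasure (level Q)) (level Q) (trueSet (ι := ℕ))) ∧
    ∀ (Ω : Type) (_ : MeasurableSpace Ω) (μ : Measure Ω) (_ : IsProbabilityMeasure μ) (A : Ω → Set ℕ) (Q : ℕ),
      1 ≤ Q → IsModel μ (level Q) A → Law μ A := by
  refine ⟨fun Q => isModel (level Q) (level_nonneg Q) (level_le_one Q), ?_⟩
  intro Ω _ μ _ A Q hQ hA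
  refine ⟨fun α δ h1 h2 h3 => Pool.Agent.Q106.GMM.const_law hA hQ h1 h2 h3,
    fun α ε h1 h2 h3 h4 => Pool.Agent.Q106.GMM.uniform hA hQ h1 h2 h3 h4, ?_,
    fun α δ N P hP => Pool.Agent.Q106.GMM.indep_below hA α δ N P hP⟩
  exact Pool.Agent.Q106.GMM.sup_law hA hQ

end Pool.Agent.Results.MP_82fd4a_nt.ProbabilityOfFailureBeyond
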